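import Pool.Agent.Lib.MP_e5ebf6_mp.Prob
import Pool.Agent.Lib.MP_e5ebf6_mp.Final

/-! Dimension of the density of states measure of Sturmian operators: for every coupling
`lam > 0` the map `α ↦ dim_H N_α` is measurable, invariant under the Gauss map at every irrational
`α ∈ (0,1)`, and almost everywhere constant. -/

open MeasureTheory
namespace Pool.Agent.Results.MP_e5ebf6_mp.GaussInvariance

theorem result {V : Type*} [NormedAddCommGroup V] [InnerProductSpace ℂ V] [CompleteSpace V]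
    (b : HilbertBasis ℤ ℂ V) (lam : ℝ) (hlam : 0 < lam) :
    (∀ α : ℝ, 0 < α → α < 1 → ∃! N : Measure ℝ, Sturm.IsDOS b lam α N) ∧
    ∀ N : ℝ → Measure ℝ,
      (∀ α : ℝ, 0 < α → α < 1 → Irrational α → Sturm.IsDOS b lam α (N α)) →
      Measurable (fun α : {α : ℝ // (0 < α ∧ α < 1) ∧ Irrational α} => Sturm.udim (N α)) ∧
      (∀ α : ℝ, 0 < α → α < 1 → Irrational α →
        Sturm.udim (N (Int.fract (1 / α))) = Sturm.udim (N α)) ∧
      ∃ d : ENNReal, d ≤ 1 ∧
        ∀ᵐ α ∂(volume.restrict (Set.Ioo (0 : ℝ) 1)), Sturm.udim (N α) = d :=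
  Sturm.final b hlam

end Pool.Agent.Results.MP_e5ebf6_mp.GaussInvariance
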